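import Pool.Agent.helper32.TRI.Spec

/-!
# Project TRI (MP_561ff4_al), row WA4: words (adapted from helper89/EXT/WA7)
-/

set_option autoImplicit false

open Finset

namespace Pool.Agent.TRI

open Pool.Agent.EXC

theorem WA4_cv (χ a b : Fin 4 → ℤ) : cv4 χ (a + b) = cv4 χ a + cv4 χ b := by
  unfold cv4
  rw [← Finset.sum_add_distrib]
  refine Finset.sum_congr rfl fun i _ => ?_
  rw [Pi.add_apply, mul_add]

theorem WA4_cn (χ a : Fin 4 → ℤ) : cv4 χ (-a) = -cv4 χ a := by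
  unfold cv4
  rw [← Finset.sum_neg_distrib]
  refine Finset.sum_congr rfl fun i _ => ?_
  rw [Pi.neg_apply, mul_neg]

theorem WA4_s1 (k : Fin 24) (t : ℤ) (s : (Fin 4 → ℤ) × (Fin 24 → ℤ)) (i : Fin 4) :
    (sz4 k t s).1 i = s.1 i - (if lt4 k i = 0 then 0 else t * s.2 (k + 12) * lt4 k i) := by
  have h : (sz4 k t s).1 i = s.1 i - (if lt4 k i = 0 then 0 else t * s.2 (tb4 k k).1 * lt4 k i) := rfl
  rw [h, tb4_diag]

theorem WA4_s2 (k : Fin 24) (t : ℤ) (s : (Fin 4 → ℤ) × (Fin 24 → ℤ)) (j : Fin 24) :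
    (sz4 k t s).2 j = s.2 j + (if j = k then t * t * s.2 (tb4 k j).1 - t * ((if ec4 k 0 = 0 then 0 else ec4 k 0 * s.1 0) +
      (if ec4 k 1 = 0 then 0 else ec4 k 1 * s.1 1) + (if ec4 k 2 = 0 then 0 else ec4 k 2 * s.1 2) +
      (if ec4 k 3 = 0 then 0 else ec4 k 3 * s.1 3)) else if (tb4 k j).2 = 0 then 0 else t * (tb4 k j).2 * s.2 (tb4 k j).1) := rfl

theorem WA4_st {K : Type} [Field K] (χ : Fin 4 → ℤ) (c : K) (hc : c ≠ 0) (k : Fin 24) (t : ℤ)
    (s : (Fin 4 → ℤ) × (Fin 24 → ℤ)) :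
    st4 k ((t : K) * c ^ (cv4 χ (lt4 k))) (fun i => (s.1 i : K), fun i => (s.2 i : K) * c ^ (cv4 χ (lt4 i))) =
      (fun i => ((sz4 k t s).1 i : K), fun i => ((sz4 k t s).2 i : K) * c ^ (cv4 χ (lt4 i))) := by
  have hA : c ^ (cv4 χ (lt4 k)) * c ^ (cv4 χ (lt4 (k + 12))) = 1 := by
    rw [(lt4_root k).2, WA4_cn, zpow_neg]
    exact mul_inv_cancel₀ (zpow_ne_zero _ hc)
  refine Prod.ext ?_ ?_
  · funext i
    change (s.1 i : K) - (if lt4 k i = 0 then 0 else (t : K) * c ^ (cv4 χ (lt4 k)) *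
      ((s.2 (k + 12) : K) * c ^ (cv4 χ (lt4 (k + 12)))) * (lt4 k i : K)) = ((sz4 k t s).1 i : K)
    rw [WA4_s1]
    split_ifs with h
    · push_cast
      ring
    · push_cast
      linear_combination (-(t : K) * (s.2 (k + 12) : K) * (lt4 k i : K)) * hA
  · funext j
    by_cases hj : j = k
    · subst hj
      have h2 : ((sz4 j t s).2 j : K) * c ^ (cv4 χ (lt4 j)) = ((s.2 j + (t * t * s.2 (j + 12) - t * ((if ec4 j 0 = 0 then 0 else ec4 j 0 * s.1 0) +
      (if ec4 j 1 = 0 then 0 else ec4 j 1 * s.1 1) + (if ec4 j 2 = 0 then 0 else ec4 j 2 * s.1 2) +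
      (if ec4 j 3 = 0 then 0 else ec4 j 3 * s.1 3))) : ℤ) : K) * c ^ (cv4 χ (lt4 j)) := by
        rw [WA4_s2, if_pos rfl, tb4_diag]
      change (s.2 j : K) * c ^ (cv4 χ (lt4 j)) + (if j = j then (t : K) * c ^ (cv4 χ (lt4 j)) * ((t : K) * c ^ (cv4 χ (lt4 j))) *
        ((s.2 (j + 12) : K) * c ^ (cv4 χ (lt4 (j + 12)))) - (t : K) * c ^ (cv4 χ (lt4 j)) *
        ((if ec4 j 0 = 0 then 0 else (ec4 j 0 : K) * (s.1 0 : K)) +
      (if ec4 j 1 = 0 then 0 else (ec4 j 1 : K) * (s.1 1 : K)) + (if ec4 j 2 = 0 then 0 else (ec4 j 2 : K) * (s.1 2 : K)) +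
      (if ec4 j 3 = 0 then 0 else (ec4 j 3 : K) * (s.1 3 : K))) else _) = ((sz4 j t s).2 j : K) * c ^ (cv4 χ (lt4 j))
      rw [h2, if_pos rfl]
      push_cast
      have e : ∀ i : Fin 4, (if ec4 j i = 0 then (0 : K) else (ec4 j i : K) * (s.1 i : K)) =
          (if ec4 j i = 0 then 0 else (ec4 j i : K) * (s.1 i : K)) := fun i => rfl
      linear_combination ((t : K) * (t : K) * (s.2 (j + 12) : K) * c ^ (cv4 χ (lt4 j))) * hA
    · change (s.2 j : K) * c ^ (cv4 χ (lt4 j)) + (if j = k then _ else if (tb4 k j).2 = 0 then 0 else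
        (t : K) * c ^ (cv4 χ (lt4 k)) * ((tb4 k j).2 : K) * ((s.2 (tb4 k j).1 : K) * c ^ (cv4 χ (lt4 (tb4 k j).1)))) =
        ((sz4 k t s).2 j : K) * c ^ (cv4 χ (lt4 j))
      rw [WA4_s2, if_neg hj, if_neg hj]
      split_ifs with h
      · push_cast
        ring
      · rcases tb4_spec k j with h3 | h3
        · rw [h3.2.2.1, WA4_cv, zpow_add₀ hc]
          push_cast
          ring
        · exact absurd h3.1 h

theorem WA4 (hLA4 : LA4_stmt) : WA4_stmt := by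
  intro K _ χ c hc l l'
  have hX : ∀ (k : Fin 24) (t : K), IsX C4 (E C4 (lt4 k)) t (XG C4 (lt4 k) t) ∧ XG C4 (lt4 k) t ∈ GE C4 K ∧
      (XG C4 (lt4 k) t)⁻¹ = XG C4 (lt4 k) (-t) := fun k t => g_XG K (lt4 k) (lt4_root k).1 t
  have hcons : ∀ (p : Fin 24 × ℤ) (l : List (Fin 24 × ℤ)),
      gw4 χ c (p :: l) = XG C4 (lt4 p.1) ((p.2 : K) * c ^ (cv4 χ (lt4 p.1))) * gw4 χ c l := by
    intro p l
    unfold gw4
    rw [List.map_cons, List.prod_cons]
  have happ : ∀ l l' : List (Fin 24 × ℤ), gw4 χ c (l ++ l') = gw4 χ c l * gw4 χ c l' := by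
    intro l l'
    unfold gw4
    rw [List.map_append, List.prod_append]
  have hnil : gw4 χ c [] = 1 := by
    unfold gw4
    rw [List.map_nil, List.prod_nil]
  refine ⟨?_, ?_, happ l l', ?_⟩
  · induction l with
    | nil =>
      rw [hnil]
      exact one_mem _
    | cons p l ih =>
      rw [hcons]
      exact mul_mem (hX _ _).2.1 ih
  · induction l with
    | nil =>
      show gw4 χ c [] = (gw4 χ c [])⁻¹
      rw [hnil, inv_one]
    | cons p l ih =>
      have h1 : wi4 (p :: l) = wi4 l ++ [(p.1, -p.2)] := by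
        unfold wi4
        rw [List.map_cons, List.reverse_cons]
      rw [h1, happ, ih, hcons, hcons, hnil, mul_one, mul_inv_rev, (hX _ _).2.2]
      push_cast
      rw [neg_mul]
  · intro s
    induction l with
    | nil =>
      rw [hnil]
      rfl
    | cons p l ih =>
      have h2 : az4 (p :: l) s = sz4 p.1 p.2 (az4 l s) := rfl
      rw [hcons, LinearEquiv.mul_apply, ih, (hX _ _).1, h2]
      unfold ez4
      rw [hLA4, WA4_st χ c hc]

end Pool.Agent.TRI
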